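import Pool.Agent.T2h95.GD.Common

/-!
# The formal implications between the cases of the Gross-Deligne conjecture
-/

set_option autoImplicit false

namespace Pool.Agent.T2h95.Old.FormalImplications

open Pool.Agent.T2h95.GDS

/-- Let `F` and `F' i` (`i` in a set `I`) be abelian number fields. The Gross-Deligne conjecture for the fields `F' i`
formally implies the conjecture for `F` (that is, the implication holds for every class of cohomology structures which is
closed under products and contains the Fermat curves) if and only if every cyclic totally complex subfield of `F` has an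
embedding in one of the fields `F' i`. -/
theorem result {I : Type} (F' : I → Type) [∀ i, Field (F' i)] [∀ i, NumberField (F' i)] (d' : I → ℕ)
    (hF' : ∀ i, IsConductor (F' i) (d' i)) (F : Type) [Field F] [NumberField F] (d : ℕ) (hF : IsConductor F d) :
    (∀ 𝒞 : HdR → Prop, Kuenneth 𝒞 → ContainsFermat 𝒞 → (∀ i, GrossDeligne 𝒞 (F' i)) → GrossDeligne 𝒞 F) ↔
      ∀ (E : Type) [Field E] [NumberField E], Nonempty (E →+* F) → IsCyclic (E ≃ₐ[ℚ] E) →
        NumberField.IsTotallyComplex E → ∃ i, Nonempty (E →+* F' i) := by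
  have red : ∀ {𝒞 : HdR → Prop}, Kuenneth 𝒞 → ContainsFermat 𝒞 → ∀ (F : Type) [Field F] [NumberField F],
      (∀ (E : Type) [Field E] [NumberField E], Nonempty (E →+* F) → IsCyclic (E ≃ₐ[ℚ] E) →
        NumberField.IsTotallyComplex E → HodgeClassesDeRham 𝒞 E) → GrossDeligne 𝒞 F := fun hK hC F _ _ h =>
    gd_old.mp (Pool.Agent.T2h95.GD.gd_of_hodge (kuenneth_old hK) (fermat_old hC) fun E _ _ hi hc hE =>
      hodge_old.mpr (h E hi hc hE))
  have red' : ∀ {𝒞 : HdR → Prop}, Kuenneth 𝒞 → ContainsFermat 𝒞 → ∀ (F : Type) [Field F] [NumberField F] (d : ℕ),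
      IsConductor F d → GrossDeligne 𝒞 F → ∀ (E : Type) [Field E] [NumberField E], Nonempty (E →+* F) →
        NumberField.IsTotallyComplex E → HodgeClassesDeRham 𝒞 E := by
    intro 𝒞 hK hC F _ _ d hF h E _ _ hi hE
    obtain ⟨⟨hd0, s, hs⟩, -⟩ := hF
    obtain ⟨i⟩ := hi
    exact hodge_old.mp (Pool.Agent.T2h95.GD.hodge_of_dep (kuenneth_old hK) (fermat_old hC) hd0 hs
      (Pool.Agent.T2h95.GD.dep_of_gd (kuenneth_old hK) hd0 hs (gd_old.mpr h)) i hE)
  constructor
  · intro h L _ _ hi hcyc hL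
    by_contra hcon
    push Not at hcon
    obtain ⟨i0⟩ := hi
    obtain ⟨σ0⟩ : Nonempty (L →+* ℂ) := inferInstance
    have hK := Pool.Agent.T2h95.GD.kuenneth_cls σ0
    have hC := Pool.Agent.T2h95.GD.fermat_cls σ0
    obtain ⟨⟨hd0, s, hs⟩, -⟩ := id hF
    have h1 : GrossDeligne (Pool.Agent.T2h95.GD.Cls σ0) F := by
      refine h _ hK hC fun i => ?_
      refine red hK hC (F' i) fun E _ _ hj hEc hE => ?_
      obtain ⟨⟨hd0', s', hs'⟩, -⟩ := hF' i
      obtain ⟨j⟩ := hj
      obtain ⟨N, _, K, _, _, _, e, l, ζ, t, ht⟩ := Pool.Agent.T2h95.GD.exists_common hd0' hd0 (s'.comp j)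
        (fun x => hs' (j x)) (s.comp i0) (fun x => hs (i0 x))
      exact Pool.Agent.T2h95.GD.hodge_cls ht l e (fun ⟨r⟩ => (hcon i).false (j.comp r)) σ0
    have : NeZero d := ⟨hd0.ne'⟩
    obtain ⟨K, _, _, _, e, ζ, t, ht⟩ := Pool.Agent.T2h95.GD.exists_cyc s hs
    exact Pool.Agent.T2h95.GD.not_hodge ht (e.comp i0) hcyc hL σ0 (red' hK hC F d hF h1 L ⟨i0⟩ hL)
  · intro h 𝒞 hK hC hGD
    refine red hK hC F fun E _ _ hi hEc hE => ?_
    obtain ⟨i, hi'⟩ := h E hi hEc hE
    exact red' hK hC (F' i) (d' i) (hF' i) (hGD i) E hi' hE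

end Pool.Agent.T2h95.Old.FormalImplications
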